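import Mathlib
import Pool.Agent.Q81.NH.Jordan

/-!
# Two nontrivial Jordan blocks force strong numerical hypercyclicity (Q1: yes)
-/

set_option autoImplicit false

namespace Pool.Agent.Results.MP_51ad50_an.TwoJordanBlocks

universe u v

/-- `T` is numerically hypercyclic: some numerical orbit `{f (T ^ n x)}` with
`‖x‖ = ‖f‖ = f x = 1` is dense in `ℂ`. -/
def NumericallyHypercyclic {X : Type u} [NormedAddCommGroup X] [NormedSpace ℂ X]
    (T : X →L[ℂ] X) : Prop :=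
  ∃ (x : X) (f : X →L[ℂ] ℂ), ‖x‖ = 1 ∧ ‖f‖ = 1 ∧ f x = 1 ∧
    Dense (Set.range fun n : ℕ => f ((T ^ n) x))

/-- `T` and `S` are similar: `J⁻¹ S J = T` for a linear homeomorphism `J`. -/
def Similar {X : Type u} {Y : Type v} [NormedAddCommGroup X] [NormedSpace ℂ X]
    [NormedAddCommGroup Y] [NormedSpace ℂ Y] (T : X →L[ℂ] X) (S : Y →L[ℂ] Y) : Prop :=
  ∃ J : X ≃L[ℂ] Y, ∀ x, J.symm (S (J x)) = T x

/-- `T` is strongly numerically hypercyclic: every operator on a complex Banach space that is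
similar to `T` is numerically hypercyclic. -/
def StronglyNumericallyHypercyclic {X : Type u} [NormedAddCommGroup X] [NormedSpace ℂ X]
    (T : X →L[ℂ] X) : Prop :=
  ∀ (Y : Type v) [NormedAddCommGroup Y] [NormedSpace ℂ Y] [CompleteSpace Y] (S : Y →L[ℂ] Y),
    Similar T S → NumericallyHypercyclic S

/-- `z` and `w` are independent: `z ^ a * w ^ b ≠ 1` for every nonzero `(a, b) ∈ ℤ²`. -/
def Independent (z w : ℂ) : Prop := ∀ a b : ℤ, (a, b) ≠ (0, 0) → z ^ a * w ^ b ≠ 1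

/-- The kernel of a bounded operator, as a set. -/
def Ker {X : Type u} [NormedAddCommGroup X] [NormedSpace ℂ X] (A : X →L[ℂ] X) : Set X :=
  {x | A x = 0}

/-- Let `X` be a complex Banach space, `T` a bounded operator on `X` and `l₁, l₂` complex numbers
with `ker (T - l_j)² ≠ ker (T - l_j)`, `|l₁| = |l₂| ≥ 1` and `l₁ / |l₁|`, `l₂ / |l₂|` independent.
Then `T` is strongly numerically hypercyclic. -/
theorem result {X : Type u} [NormedAddCommGroup X] [NormedSpace ℂ X] [CompleteSpace X]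
    (T : X →L[ℂ] X) (l₁ l₂ : ℂ)
    (hk₁ : Ker ((T - l₁ • (1 : X →L[ℂ] X)) ^ 2) ≠ Ker (T - l₁ • (1 : X →L[ℂ] X)))
    (hk₂ : Ker ((T - l₂ • (1 : X →L[ℂ] X)) ^ 2) ≠ Ker (T - l₂ • (1 : X →L[ℂ] X)))
    (h12 : ‖l₁‖ = ‖l₂‖) (h1 : 1 ≤ ‖l₁‖) (hi : Independent (l₁ / ‖l₁‖) (l₂ / ‖l₂‖)) :
    StronglyNumericallyHypercyclic.{u, v} T := by
  intro Y _ _ _ S hS
  obtain ⟨J, hJ⟩ := hS
  have hJ' : ∀ x, S (J x) = J (T x) := by
    intro x
    rw [← hJ x, ContinuousLinearEquiv.apply_symm_apply]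
  have key : ∀ l : ℂ, Ker ((T - l • (1 : X →L[ℂ] X)) ^ 2) ≠ Ker (T - l • (1 : X →L[ℂ] X)) →
      ∃ e g : Y, S e = l • e ∧ S g = l • g + e ∧ e ≠ 0 := by
    intro l hl
    have hle : Ker (T - l • (1 : X →L[ℂ] X)) ⊆ Ker ((T - l • (1 : X →L[ℂ] X)) ^ 2) := by
      intro x hx
      have hx' : (T - l • (1 : X →L[ℂ] X)) x = 0 := hx
      show ((T - l • (1 : X →L[ℂ] X)) ^ 2) x = 0
      rw [pow_two, mul_apply_eq_comp, hx', map_zero]
    obtain ⟨g, hg, hg'⟩ : ∃ g, ((T - l • (1 : X →L[ℂ] X)) ^ 2) g = 0 ∧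
        ¬ (T - l • (1 : X →L[ℂ] X)) g = 0 := by
      by_contra hcon
      push Not at hcon
      exact hl (Set.Subset.antisymm hcon hle)
    rw [pow_two, mul_apply_eq_comp] at hg
    set e' := (T - l • (1 : X →L[ℂ] X)) g with he'
    have e1 : T g = l • g + e' := by
      rw [he']
      simp
    have e2 : T e' = l • e' := by
      have : (T - l • (1 : X →L[ℂ] X)) e' = T e' - l • e' := by simp
      rw [this] at hg
      exact sub_eq_zero.1 hg
    refine ⟨J e', J g, ?_, ?_, ?_⟩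
    · rw [hJ', e2, map_smul]
    · rw [hJ', e1, map_add, map_smul]
    · intro h
      exact hg' (J.injective (by rw [h, map_zero]))
  obtain ⟨e₁, g₁, a1, a2, a3⟩ := key l₁ hk₁
  obtain ⟨e₂, g₂, b1, b2, b3⟩ := key l₂ hk₂
  exact Pool.Agent.Q81.NH.main S l₁ l₂ h12 h1 (by
    intro a b hab
    by_contra hcon
    refine hi a b ?_ hab
    intro h
    rw [Prod.mk.injEq] at h
    exact hcon h) e₁ g₁ e₂ g₂ a1 a2 a3 b1 b2 b3

end Pool.Agent.Results.MP_51ad50_an.TwoJordanBlocks
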